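import Pool.Agent.Lib.MP_b5d711_an.Greedy

set_option autoImplicit false

open Set MeasureTheory Filter Topology
open scoped ENNReal NNReal

namespace Pool.Agent.Lib.MP_b5d711_an

/-- level exponent from the number of earlier letters -/
def lexp (k M : ℕ) : ℕ := k * (M + 3) + 1

/-- number of letters before level `k` -/
def Mc : ℕ → ℕ
  | 0 => 0
  | k + 1 => Mc k + 3 * 2 ^ (lexp k (Mc k))

/-- exponent of level `k` -/
def lv (k : ℕ) : ℕ := lexp k (Mc k)

lemma Mc_zero : Mc 0 = 0 := rfl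
lemma Mc_succ (k : ℕ) : Mc (k + 1) = Mc k + 3 * 2 ^ lv k := rfl
lemma lv_eq (k : ℕ) : lv k = k * (Mc k + 3) + 1 := rfl

lemma Mc_strictMono : StrictMono Mc := by
  apply strictMono_nat_of_lt_succ
  intro k
  rw [Mc_succ]
  have : 0 < 2 ^ lv k := by positivity
  omega

lemma le_Mc (k : ℕ) : k ≤ Mc k := Mc_strictMono.id_le k

lemma lv_strictMono : StrictMono lv := by
  apply strictMono_nat_of_lt_succ
  intro k
  rw [lv_eq, lv_eq]
  have := Mc_strictMono (Nat.lt_succ_self k)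
  have h : k * (Mc k + 3) ≤ k * (Mc (k + 1) + 3) := Nat.mul_le_mul_left _ (by
    have := Mc_strictMono (Nat.lt_succ_self k)
    simp only [Nat.succ_eq_add_one] at this
    omega)
  have h2 : (k + 1) * (Mc (k + 1) + 3) = k * (Mc (k + 1) + 3) + (Mc (k + 1) + 3) := by ring
  omega

lemma exists_level (n : ℕ) : ∃ k, n < Mc (k + 1) :=
  ⟨n, lt_of_lt_of_le (Nat.lt_succ_self n) (le_Mc (n + 1))⟩

/-- level of a letter -/
def lev (n : ℕ) : ℕ := Nat.find (exists_level n)

lemma lt_Mc_lev (n : ℕ) : n < Mc (lev n + 1) := Nat.find_spec (exists_level n)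

lemma Mc_lev_le (n : ℕ) : Mc (lev n) ≤ n := by
  rcases Nat.eq_zero_or_pos (lev n) with h | h
  · rw [h, Mc_zero]; omega
  · by_contra hcon
    push Not at hcon
    have h1 : n < Mc ((lev n - 1) + 1) := by
      rwa [Nat.sub_add_cancel h]
    have h2 : lev n ≤ lev n - 1 := Nat.find_min' (exists_level n) h1
    omega

lemma lev_eq_of {n k : ℕ} (h1 : Mc k ≤ n) (h2 : n < Mc (k + 1)) : lev n = k := by
  have h3 := lt_Mc_lev n
  have h4 := Mc_lev_le n
  have h5 : k < lev n + 1 := Mc_strictMono.lt_iff_lt.1 (lt_of_le_of_lt h1 h3)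
  have h6 : lev n < k + 1 := Mc_strictMono.lt_iff_lt.1 (lt_of_le_of_lt h4 h2)
  omega

/-- contraction ratios -/
noncomputable def rr (n : ℕ) : ℝ := (1 / 16) ^ lv (lev n)

lemma rr_pos (n : ℕ) : 0 < rr n := by unfold rr; positivity

lemma one_le_lv (k : ℕ) : 1 ≤ lv k := by rw [lv_eq]; omega

lemma rr_le (n : ℕ) : rr n ≤ 1 / 16 := by
  unfold rr
  calc (1 / 16 : ℝ) ^ lv (lev n) ≤ (1 / 16 : ℝ) ^ 1 :=
        pow_le_pow_of_le_one (by norm_num) (by norm_num) (one_le_lv _)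
    _ = _ := by norm_num

lemma sum_level (f : ℕ → ℝ) (k : ℕ) (c : ℝ) (hf : ∀ n, lev n = k → f n = c) :
    ∑ n ∈ Finset.range (Mc (k + 1)), f n
      = ∑ n ∈ Finset.range (Mc k), f n + (3 * 2 ^ lv k : ℕ) * c := by
  rw [Mc_succ, Finset.sum_range_add]
  congr 1
  rw [Finset.sum_congr rfl (g := fun _ => c)]
  · simp
  · intro x hx
    apply hf
    rw [Finset.mem_range] at hx
    apply lev_eq_of (by omega)
    rw [Mc_succ]; omega

/-- Sum of the ratios. -/
lemma sum_rr_aux (k : ℕ) :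
    ∑ n ∈ Finset.range (Mc k), rr n + 24 / 7 * (1 / 8 : ℝ) ^ lv k ≤ 3 / 7 := by
  induction k with
  | zero =>
    rw [Mc_zero, Finset.range_zero, Finset.sum_empty, show lv 0 = 1 from rfl]
    norm_num
  | succ k ih =>
    rw [sum_level rr k ((1 / 16) ^ lv k) (fun n hn => by unfold rr; rw [hn])]
    have h1 : ((3 * 2 ^ lv k : ℕ) : ℝ) * (1 / 16) ^ lv k = 3 * (1 / 8 : ℝ) ^ lv k := by
      push_cast
      rw [mul_assoc, ← mul_pow]
      norm_num
    rw [h1]
    have h2 : (1 / 8 : ℝ) ^ lv (k + 1) ≤ (1 / 8 : ℝ) ^ (lv k + 1) :=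
      pow_le_pow_of_le_one (by norm_num) (by norm_num) (lv_strictMono (Nat.lt_succ_self k))
    rw [pow_succ] at h2
    linarith

lemma sum_rr_le (n : ℕ) : ∑ i ∈ Finset.range n, rr i ≤ 3 / 7 := by
  have h1 := sum_rr_aux n
  have h2 : ∑ i ∈ Finset.range n, rr i ≤ ∑ i ∈ Finset.range (Mc n), rr i := by
    apply Finset.sum_le_sum_of_subset_of_nonneg
    · exact Finset.range_subset_range.2 (le_Mc n)
    · intro i _ _; exact (rr_pos i).le
  have h3 : (0 : ℝ) ≤ 24 / 7 * (1 / 8 : ℝ) ^ lv n := by positivity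
  linarith

lemma summable_rr : Summable rr :=
  summable_of_sum_range_le (fun n => (rr_pos n).le) sum_rr_le

lemma rr_tendsto : Tendsto rr atTop (𝓝 0) := summable_rr.tendsto_atTop_zero

/-- Translations. -/
noncomputable def tt (n : ℕ) : ℝ := -1 + 3 * ∑ i ∈ Finset.range n, rr i + rr n

lemma tt_sub (a b : ℕ) (hab : a < b) : 2 * rr a + rr b ≤ tt b - tt a := by
  unfold tt
  have h1 : ∑ i ∈ Finset.range (a + 1), rr i ≤ ∑ i ∈ Finset.range b, rr i := by
    apply Finset.sum_le_sum_of_subset_of_nonneg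
    · exact Finset.range_subset_range.2 hab
    · intro i _ _; exact (rr_pos i).le
  rw [Finset.sum_range_succ] at h1
  linarith

theorem sys_rt : Sys rr tt where
  r_pos := rr_pos
  r_le := fun n => (rr_le n).trans (by norm_num)
  bd := by
    intro e
    have h1 := rr_pos e
    have h2 : 0 ≤ ∑ i ∈ Finset.range e, rr i := Finset.sum_nonneg fun i _ => (rr_pos i).le
    have h3 := sum_rr_le (e + 1)
    rw [Finset.sum_range_succ] at h3
    have : |tt e| ≤ 1 - rr e := by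
      rw [abs_le]; unfold tt
      constructor <;> linarith
    linarith
  sep := by
    intro a b hab
    rcases lt_or_gt_of_ne hab with h | h
    · have h1 := tt_sub a b h
      have h2 := rr_pos a
      have h3 := rr_pos b
      rw [abs_sub_comm, abs_of_pos (by linarith)]
      linarith
    · have h1 := tt_sub b a h
      have h2 := rr_pos a
      have h3 := rr_pos b
      rw [abs_of_pos (by linarith)]
      linarith

lemma rpow_quarter (l : ℕ) : ((1 / 16 : ℝ) ^ l) ^ (1 / 4 : ℝ) = (1 / 2) ^ l := by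
  rw [← Real.rpow_natCast, ← Real.rpow_mul (by norm_num), mul_comm, Real.rpow_mul (by norm_num),
    Real.rpow_natCast]
  congr 1
  rw [show (1 / 16 : ℝ) = (1 / 2) ^ (4 : ℝ) by norm_num, ← Real.rpow_mul (by norm_num)]
  norm_num

lemma rpow_half (l : ℕ) : ((1 / 16 : ℝ) ^ l) ^ (1 / 2 : ℝ) = (1 / 4) ^ l := by
  rw [← Real.rpow_natCast, ← Real.rpow_mul (by norm_num), mul_comm, Real.rpow_mul (by norm_num),
    Real.rpow_natCast]
  congr 1
  rw [show (1 / 16 : ℝ) = (1 / 4) ^ (2 : ℝ) by norm_num, ← Real.rpow_mul (by norm_num)]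
  norm_num

lemma sum_quarter (k : ℕ) : ∑ n ∈ Finset.range (Mc k), rr n ^ (1 / 4 : ℝ) = 3 * k := by
  induction k with
  | zero => simp [Mc_zero]
  | succ k ih =>
    rw [sum_level _ k (((1 / 16) ^ lv k) ^ (1 / 4 : ℝ)) (fun n hn => by unfold rr; rw [hn]), ih,
      rpow_quarter]
    push_cast
    rw [mul_assoc, ← mul_pow]
    norm_num
    ring

lemma not_summable {x : ℝ} (hx : x ≤ 1 / 4) : ¬ Summable (fun n => rr n ^ x) := by
  intro hs
  have h1 : Summable (fun n => rr n ^ (1 / 4 : ℝ)) := by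
    apply Summable.of_nonneg_of_le (fun n => Real.rpow_nonneg (rr_pos n).le _) _ hs
    intro n
    exact Real.rpow_le_rpow_of_exponent_ge (rr_pos n) (by have := rr_le n; linarith) hx
  obtain ⟨k, hk⟩ := exists_nat_gt (∑' n, rr n ^ (1 / 4 : ℝ))
  have h2 := h1.sum_le_tsum (Finset.range (Mc k))
    (fun n _ => Real.rpow_nonneg (rr_pos n).le _)
  rw [sum_quarter] at h2
  have : (0 : ℝ) ≤ k := by positivity
  linarith

theorem Ioc_subset_D : Ioc (0 : ℝ) (1 / 4) ⊆ D rr tt := by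
  intro x hx
  exact mem_D_of_divergent sys_rt hx.1 rr_tendsto (not_summable hx.2)

/-- Tail bounds for exponent 1/2. -/
lemma sum_half_aux (k j : ℕ) :
    ∑ n ∈ Finset.range (Mc (k + j)), rr n ^ (1 / 2 : ℝ) + 6 * (1 / 2 : ℝ) ^ lv (k + j)
      ≤ ∑ n ∈ Finset.range (Mc k), rr n ^ (1 / 2 : ℝ) + 6 * (1 / 2 : ℝ) ^ lv k := by
  induction j with
  | zero => simp
  | succ j ih =>
    rw [← add_assoc, sum_level _ (k + j) (((1 / 16) ^ lv (k + j)) ^ (1 / 2 : ℝ))
      (fun n hn => by unfold rr; rw [hn]), rpow_half]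
    have h1 : ((3 * 2 ^ lv (k + j) : ℕ) : ℝ) * (1 / 4) ^ lv (k + j)
        = 3 * (1 / 2 : ℝ) ^ lv (k + j) := by
      push_cast
      rw [mul_assoc, ← mul_pow]
      norm_num
    rw [h1]
    have h2 : (1 / 2 : ℝ) ^ lv (k + j + 1) ≤ (1 / 2 : ℝ) ^ (lv (k + j) + 1) :=
      pow_le_pow_of_le_one (by norm_num) (by norm_num) (lv_strictMono (Nat.lt_succ_self _))
    rw [pow_succ] at h2
    linarith

lemma tail_half (k : ℕ) :
    ∑' e : {e // e ∉ Finset.range (Mc k)}, ENNReal.ofReal (rr e) ^ (1 / 2 : ℝ)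
      ≤ ENNReal.ofReal (6 * (1 / 2 : ℝ) ^ lv k) := by
  classical
  rw [ENNReal.tsum_eq_iSup_sum]
  apply iSup_le
  intro S
  -- bound the finite sum
  obtain ⟨N, hN⟩ : ∃ N : ℕ, ∀ e ∈ S, (e : ℕ) < N := by
    refine ⟨S.sup (fun e => (e : ℕ)) + 1, fun e he => ?_⟩
    have := Finset.le_sup (f := fun e : {e // e ∉ Finset.range (Mc k)} => (e : ℕ)) he
    exact Nat.lt_succ_of_le this
  have h0 : ∑ e ∈ S, ENNReal.ofReal (rr (e : ℕ)) ^ (1 / 2 : ℝ)
      = ENNReal.ofReal (∑ e ∈ S, rr (e : ℕ) ^ (1 / 2 : ℝ)) := by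
    rw [ENNReal.ofReal_sum_of_nonneg (fun _ _ => Real.rpow_nonneg (rr_pos _).le _)]
    apply Finset.sum_congr rfl
    intro e _
    rw [ENNReal.ofReal_rpow_of_pos (rr_pos _)]
  rw [h0]
  apply ENNReal.ofReal_le_ofReal
  have h1 : ∑ e ∈ S, rr (e : ℕ) ^ (1 / 2 : ℝ)
      = ∑ n ∈ S.map ⟨Subtype.val, Subtype.val_injective⟩, rr n ^ (1 / 2 : ℝ) := by
    rw [Finset.sum_map]; rfl
  rw [h1]
  have h2 : Disjoint (S.map ⟨Subtype.val, Subtype.val_injective⟩) (Finset.range (Mc k)) := by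
    rw [Finset.disjoint_left]
    intro e he
    rw [Finset.mem_map] at he
    obtain ⟨e', _, rfl⟩ := he
    exact e'.2
  have h3 : S.map ⟨Subtype.val, Subtype.val_injective⟩ ∪ Finset.range (Mc k)
      ⊆ Finset.range (Mc (k + N)) := by
    intro e he
    rw [Finset.mem_union] at he
    rw [Finset.mem_range]
    rcases he with he | he
    · rw [Finset.mem_map] at he
      obtain ⟨e', he', rfl⟩ := he
      have h4 := hN e' he'
      have h5 := le_Mc (k + N)
      show (e' : ℕ) < _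
      omega
    · rw [Finset.mem_range] at he
      exact lt_of_lt_of_le he (Mc_strictMono.monotone (by omega))
  have h4 := Finset.sum_le_sum_of_subset_of_nonneg h3
    (f := fun n => rr n ^ (1 / 2 : ℝ)) (fun i _ _ => Real.rpow_nonneg (rr_pos _).le _)
  rw [Finset.sum_union h2] at h4
  have h5 := sum_half_aux k N
  have h6 : (0 : ℝ) ≤ 6 * (1 / 2 : ℝ) ^ lv (k + N) := by positivity
  linarith

lemma T_le_half (k : ℕ) : 6 * (1 / 2 : ℝ) ^ lv (k + 1) ≤ 1 / 2 := by
  have h : 10 ≤ lv (k + 1) := by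
    have h1 : lv 1 ≤ lv (k + 1) := lv_strictMono.monotone (by omega)
    have h2 : lv 1 = 10 := rfl
    omega
  have h2 : (1 / 2 : ℝ) ^ lv (k + 1) ≤ (1 / 2 : ℝ) ^ 10 :=
    pow_le_pow_of_le_one (by norm_num) (by norm_num) h
  have h3 : (1 / 2 : ℝ) ^ 10 = 1 / 1024 := by norm_num
  linarith

lemma hlim_aux (u : ℝ) (hu : 0 < u) :
    Tendsto (fun k => (2 : ℝ) ^ (Finset.range (Mc (k + 1))).card
      * (3 * (6 * (1 / 2 : ℝ) ^ lv (k + 1))) ^ u) atTop (𝓝 0) := by
  have hgeo : Tendsto (fun k : ℕ => (1 / 2 : ℝ) ^ k) atTop (𝓝 0) :=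
    tendsto_pow_atTop_nhds_zero_of_lt_one (by norm_num) (by norm_num)
  refine squeeze_zero' (Eventually.of_forall fun k => by positivity) ?_ hgeo
  obtain ⟨N, hN⟩ := exists_nat_gt (2 / u)
  filter_upwards [eventually_ge_atTop (max N 2)] with k hk
  have hkN : N ≤ k := le_trans (le_max_left _ _) hk
  have hk2 : 2 ≤ k := le_trans (le_max_right _ _) hk
  rw [Finset.card_range]
  set M := Mc (k + 1) with hM
  have hMk : k ≤ M := le_trans (Nat.le_succ k) (le_Mc (k + 1))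
  have h1 : 3 * (6 * (1 / 2 : ℝ) ^ lv (k + 1)) ≤ (1 / 2 : ℝ) ^ (k * M) := by
    have h2 : lv (k + 1) = k * M + (3 * k + M + 4) := by
      rw [lv_eq, ← hM]; ring
    rw [h2, pow_add]
    have h3 : (1 / 2 : ℝ) ^ (3 * k + M + 4) ≤ (1 / 2 : ℝ) ^ 10 :=
      pow_le_pow_of_le_one (by norm_num) (by norm_num) (by omega)
    have h4 : (1 / 2 : ℝ) ^ 10 = 1 / 1024 := by norm_num
    have h5 : (0 : ℝ) < (1 / 2 : ℝ) ^ (k * M) := by positivity
    nlinarith
  have h2 : (3 * (6 * (1 / 2 : ℝ) ^ lv (k + 1))) ^ u ≤ (1 / 2 : ℝ) ^ (2 * (M : ℝ)) := by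
    calc _ ≤ ((1 / 2 : ℝ) ^ (k * M)) ^ u :=
          Real.rpow_le_rpow (by positivity) h1 hu.le
      _ = (1 / 2 : ℝ) ^ ((k * M : ℕ) * u) := by
          rw [← Real.rpow_natCast, ← Real.rpow_mul (by norm_num)]
      _ ≤ _ := by
          apply Real.rpow_le_rpow_of_exponent_ge (by norm_num) (by norm_num)
          have h3 : 2 ≤ k * u := by
            rw [div_lt_iff₀ hu] at hN
            have : (N : ℝ) ≤ k := by exact_mod_cast hkN
            nlinarith
          push_cast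
          have h4 : (0 : ℝ) ≤ M := by positivity
          nlinarith
  calc _ ≤ (2 : ℝ) ^ M * (1 / 2 : ℝ) ^ (2 * (M : ℝ)) := by gcongr
    _ = (1 / 2 : ℝ) ^ M := by
        rw [show (2 * (M : ℝ)) = ((2 * M : ℕ) : ℝ) by push_cast; ring, Real.rpow_natCast, two_mul,
          pow_add, ← mul_assoc, ← mul_pow]
        norm_num
    _ ≤ (1 / 2 : ℝ) ^ k := pow_le_pow_of_le_one (by norm_num) (by norm_num) hMk

theorem dimH_D_above_half : dimH (D rr tt ∩ Ioi (1 / 2)) = 0 :=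
  dimH_D_above sys_rt (by norm_num) (fun k => Finset.range (Mc (k + 1)))
    (fun k => 6 * (1 / 2 : ℝ) ^ lv (k + 1)) (fun k => by positivity) T_le_half
    (fun k => tail_half (k + 1)) hlim_aux

/-- Existence of the point `x_k`. -/
lemma exists_point (k : ℕ) (hk : 1 ≤ k) :
    ∃ x ∈ Ioo (1 / 2 : ℝ) 1, x ∈ D rr tt ∧
      6 * (1 / 16 : ℝ) ^ x + ((1 / 16 : ℝ) ^ lv k) ^ x = 1 := by
  set f : ℝ → ℝ := fun x => 6 * (1 / 16 : ℝ) ^ x + ((1 / 16 : ℝ) ^ lv k) ^ x with hf
  have hc : Continuous f := by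
    have h1 : Continuous fun x : ℝ => (1 / 16 : ℝ) ^ x := Real.continuous_const_rpow (by norm_num)
    have h2 : Continuous fun x : ℝ => ((1 / 16 : ℝ) ^ lv k) ^ x :=
      Real.continuous_const_rpow (by positivity)
    exact (continuous_const.mul h1).add h2
  have h1 : 1 < f (1 / 2) := by
    simp only [hf]
    have h3 := rpow_half 1
    rw [pow_one, pow_one] at h3
    rw [h3]
    have h4 : (0 : ℝ) < ((1 / 16 : ℝ) ^ lv k) ^ (1 / 2 : ℝ) := by positivity
    linarith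
  have h2 : f 1 < 1 := by
    simp only [hf, Real.rpow_one]
    have h3 : (1 / 16 : ℝ) ^ lv k ≤ (1 / 16 : ℝ) ^ 1 :=
      pow_le_pow_of_le_one (by norm_num) (by norm_num) (one_le_lv _)
    rw [pow_one] at h3
    linarith
  obtain ⟨x, hx, hfx⟩ := intermediate_value_Ioo' (by norm_num : (1 / 2 : ℝ) ≤ 1)
    hc.continuousOn (show (1 : ℝ) ∈ Ioo (f 1) (f (1 / 2)) from ⟨h2, h1⟩)
  refine ⟨x, hx, ?_, hfx⟩
  have hM1 : Mc 1 = 6 := rfl
  have hMk : 6 ≤ Mc k := by rw [← hM1]; exact Mc_strictMono.monotone hk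
  apply mem_D_of_finset sys_rt (insert (Mc k) (Finset.range 6)) (Finset.insert_nonempty _ _) x
    (by linarith [hx.1])
  rw [Finset.sum_insert (by rw [Finset.mem_range]; omega)]
  have e1 : rr (Mc k) = (1 / 16 : ℝ) ^ lv k := by
    unfold rr
    rw [lev_eq_of (le_refl _) (Mc_strictMono (Nat.lt_succ_self k))]
  have e2 : ∑ n ∈ Finset.range 6, rr n ^ x = 6 * (1 / 16 : ℝ) ^ x := by
    rw [Finset.sum_congr rfl (g := fun _ => (1 / 16 : ℝ) ^ x)]
    · simp
    · intro n hn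
      rw [Finset.mem_range] at hn
      have : lev n = 0 := lev_eq_of (by rw [Mc_zero]; omega) (by rw [zero_add, hM1]; exact hn)
      unfold rr
      rw [this, show lv 0 = 1 from rfl, pow_one]
  rw [e1, e2, add_comm]
  exact hfx

theorem infinite_above : (D rr tt ∩ Ioi (1 / 2)).Infinite := by
  choose x hx1 hx2 hx3 using fun k : ℕ => exists_point (k + 1) (by omega)
  apply Set.infinite_of_injective_forall_mem (f := x)
  · intro a b hab
    have h1 := hx3 a
    have h2 := hx3 b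
    rw [hab] at h1
    have h3 : ((1 / 16 : ℝ) ^ lv (a + 1)) ^ (x b) = ((1 / 16 : ℝ) ^ lv (b + 1)) ^ (x b) := by
      linarith
    have hb : 0 < x b := by have := (hx1 b).1; linarith
    have h4 : (1 / 16 : ℝ) ^ lv (a + 1) = (1 / 16 : ℝ) ^ lv (b + 1) :=
      (Real.rpow_left_inj (by positivity) (by positivity) hb.ne').1 h3
    have h5 : lv (a + 1) = lv (b + 1) :=
      (pow_right_injective₀ (by norm_num : (0 : ℝ) < 1 / 16) (by norm_num)) h4
    have := lv_strictMono.injective h5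
    omega
  · intro k
    exact ⟨hx2 k, (hx1 k).1⟩

end Pool.Agent.Lib.MP_b5d711_an
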