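import Mathlib

set_option autoImplicit false

open Set MeasureTheory Filter Topology
open scoped ENNReal NNReal

namespace Pool.Agent.Lib.MP_b5d711_an

/-- A one dimensional system of similarities `x ↦ r e * x + t e` of `[-1,1]`, separated. -/
structure Sys {ι : Type} (r t : ι → ℝ) : Prop where
  r_pos : ∀ e, 0 < r e
  r_le : ∀ e, r e ≤ 1 / 2
  bd : ∀ e, |t e| + r e ≤ 1
  sep : ∀ a b, a ≠ b → r a + r b < |t a - t b|

variable {ι : Type} {r t : ι → ℝ}

/-- The coding map. -/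
noncomputable def P (r t : ι → ℝ) (ω : ℕ → ι) : ℝ :=
  ∑' n, (∏ i ∈ Finset.range n, r (ω i)) * t (ω n)

lemma prod_nonneg (h : Sys r t) (ω : ℕ → ι) (n : ℕ) : 0 < ∏ i ∈ Finset.range n, r (ω i) :=
  Finset.prod_pos fun _ _ => h.r_pos _

lemma prod_le (h : Sys r t) (ω : ℕ → ι) (n : ℕ) :
    ∏ i ∈ Finset.range n, r (ω i) ≤ (1 / 2) ^ n := by
  calc _ ≤ ∏ _i ∈ Finset.range n, (1 / 2 : ℝ) :=
        Finset.prod_le_prod (fun _ _ => (h.r_pos _).le) (fun _ _ => h.r_le _)
    _ = _ := by simp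

lemma abs_t_le (h : Sys r t) (e : ι) : |t e| ≤ 1 := by
  have := h.bd e; have := h.r_pos e; linarith

lemma summable_P (h : Sys r t) (ω : ℕ → ι) :
    Summable (fun n => (∏ i ∈ Finset.range n, r (ω i)) * t (ω n)) := by
  apply Summable.of_norm_bounded (g := fun n => (1 / 2 : ℝ) ^ n) summable_geometric_two
  intro n
  rw [norm_mul, Real.norm_eq_abs, Real.norm_eq_abs, abs_of_pos (prod_nonneg h ω n)]
  calc _ ≤ (1 / 2 : ℝ) ^ n * 1 :=
        mul_le_mul (prod_le h ω n) (abs_t_le h _) (abs_nonneg _) (by positivity)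
    _ = _ := mul_one _

lemma P_succ (h : Sys r t) (ω : ℕ → ι) :
    P r t ω = r (ω 0) * P r t (fun n => ω (n + 1)) + t (ω 0) := by
  unfold P
  rw [(summable_P h ω).tsum_eq_zero_add, ← tsum_mul_left]
  simp only [Finset.range_zero, Finset.prod_empty, one_mul]
  rw [add_comm]
  congr 1
  apply tsum_congr
  intro n
  rw [Finset.prod_range_succ']
  ring

lemma partial_le (h : Sys r t) (ω : ℕ → ι) (n : ℕ) :
    |∑ k ∈ Finset.range n, (∏ i ∈ Finset.range k, r (ω i)) * t (ω k)|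
      ≤ 1 - ∏ i ∈ Finset.range n, r (ω i) := by
  induction n with
  | zero => simp
  | succ n ih =>
    rw [Finset.sum_range_succ, Finset.prod_range_succ]
    have h1 := prod_nonneg h ω n
    have h2 : |(∏ i ∈ Finset.range n, r (ω i)) * t (ω n)|
        ≤ (∏ i ∈ Finset.range n, r (ω i)) * (1 - r (ω n)) := by
      rw [abs_mul, abs_of_pos h1]
      apply mul_le_mul_of_nonneg_left _ h1.le
      have := h.bd (ω n); linarith
    have h3 := abs_add_le (∑ k ∈ Finset.range n, (∏ i ∈ Finset.range k, r (ω i)) * t (ω k))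
      ((∏ i ∈ Finset.range n, r (ω i)) * t (ω n))
    linarith

lemma abs_P_le (h : Sys r t) (ω : ℕ → ι) : |P r t ω| ≤ 1 := by
  have h1 := (summable_P h ω).hasSum.tendsto_sum_nat
  have h2 := h1.abs
  refine le_of_tendsto h2 (Eventually.of_forall fun n => ?_)
  have := partial_le h ω n
  have := prod_nonneg h ω n
  linarith

/-- shift -/
def sh (ω : ℕ → ι) (n : ℕ) : ℕ → ι := fun k => ω (n + k)

lemma sh_zero (ω : ℕ → ι) : sh ω 0 = ω := by ext k; simp [sh]

lemma P_sh (h : Sys r t) (ω : ℕ → ι) (n : ℕ) :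
    P r t (sh ω n) = r (ω n) * P r t (sh ω (n + 1)) + t (ω n) := by
  rw [P_succ h]
  have : (fun k => sh ω n (k + 1)) = sh ω (n + 1) := by
    ext k; simp only [sh]; congr 1; omega
  rw [this]; rfl

/-- The limit set in one dimensional coordinates. -/
def K (r t : ι → ℝ) (F : Set ι) : Set ℝ := {x | ∃ ω : ℕ → ι, (∀ n, ω n ∈ F) ∧ P r t ω = x}

lemma K_mono {F G : Set ι} (hFG : F ⊆ G) : K r t F ⊆ K r t G := by
  rintro x ⟨ω, hω, rfl⟩
  exact ⟨ω, fun n => hFG (hω n), rfl⟩

/-- Cylinder sets. -/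
def Cyl (r t : ι → ℝ) : (n : ℕ) → (Fin n → ι) → Set ℝ
  | 0, _ => Icc (-1) 1
  | n + 1, w => (fun x => r (w 0) * x + t (w 0)) '' Cyl r t n (Fin.tail w)

lemma P_mem_Cyl (h : Sys r t) (n : ℕ) (ω : ℕ → ι) :
    P r t ω ∈ Cyl r t n (fun i : Fin n => ω i) := by
  induction n generalizing ω with
  | zero => exact abs_le.1 (abs_P_le h ω)
  | succ n ih =>
    refine ⟨P r t (fun n => ω (n + 1)), ?_, (P_succ h ω).symm⟩
    have := ih (fun n => ω (n + 1))
    convert this using 2
    ext i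
    simp [Fin.tail]

lemma ediam_Cyl (h : Sys r t) (n : ℕ) (w : Fin n → ι) :
    Metric.ediam (Cyl r t n w) ≤ (∏ i, ENNReal.ofReal (r (w i))) * 2 := by
  induction n with
  | zero =>
    simp only [Finset.univ_eq_empty, Finset.prod_empty, one_mul]
    show Metric.ediam (Icc (-1 : ℝ) 1) ≤ 2
    rw [Real.ediam_Icc]
    norm_num
  | succ n ih =>
    rw [Fin.prod_univ_succ, mul_assoc]
    have hL : LipschitzWith (Real.toNNReal (r (w 0))) (fun x : ℝ => r (w 0) * x + t (w 0)) := by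
      apply LipschitzWith.of_dist_le_mul
      intro x y
      rw [Real.dist_eq, Real.dist_eq, Real.coe_toNNReal _ (h.r_pos _).le]
      rw [show r (w 0) * x + t (w 0) - (r (w 0) * y + t (w 0)) = r (w 0) * (x - y) by ring,
        abs_mul, abs_of_pos (h.r_pos _)]
    refine (hL.ediam_image_le _).trans ?_
    show ENNReal.ofReal (r (w 0)) * _ ≤ _
    gcongr
    exact ih _

/-- sum over words -/
lemma tsum_words (n : ℕ) (c : ι → ℝ≥0∞) :
    ∑' w : Fin n → ι, ∏ i, c (w i) = (∑' e, c e) ^ n := by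
  induction n with
  | zero => simp
  | succ n ih =>
    rw [← (Fin.consEquiv (fun _ : Fin (n + 1) => ι)).tsum_eq, ENNReal.tsum_prod', pow_succ']
    rw [← ih, ← ENNReal.tsum_mul_right]
    apply tsum_congr
    intro e
    rw [← ENNReal.tsum_mul_left]
    apply tsum_congr
    intro w
    rw [Fin.prod_univ_succ]
    simp [Fin.consEquiv]

/-- Upper bound for the dimension. -/
theorem dimH_K_le [Countable ι] (h : Sys r t) (F : Set ι) (s : ℝ≥0)
    (hs : ∑' e : F, ENNReal.ofReal (r e) ^ (s : ℝ) ≤ 1) : dimH (K r t F) ≤ s := by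
  apply dimH_le_of_hausdorffMeasure_ne_top
  have hlim : Tendsto (fun n : ℕ => ENNReal.ofReal ((1 / 2 : ℝ) ^ n * 2)) atTop (𝓝 0) := by
    rw [← ENNReal.ofReal_zero]
    apply ENNReal.tendsto_ofReal
    have := (tendsto_pow_atTop_nhds_zero_of_lt_one (r := (1 / 2 : ℝ)) (by norm_num) (by norm_num))
    simpa using this.mul_const 2
  have hprod : ∀ (n : ℕ) (w : Fin n → F),
      (∏ i, ENNReal.ofReal (r (w i))) ≤ ENNReal.ofReal ((1 / 2 : ℝ) ^ n) := by
    intro n w
    rw [← ENNReal.ofReal_prod_of_nonneg (fun i _ => (h.r_pos _).le)]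
    apply ENNReal.ofReal_le_ofReal
    calc _ ≤ ∏ _i : Fin n, (1 / 2 : ℝ) :=
          Finset.prod_le_prod (fun _ _ => (h.r_pos _).le) (fun _ _ => h.r_le _)
      _ = _ := by simp
  have key := Measure.hausdorffMeasure_le_liminf_tsum (s : ℝ) (K r t F) (l := atTop)
    (fun n : ℕ => ENNReal.ofReal ((1 / 2 : ℝ) ^ n * 2)) hlim
    (fun (n : ℕ) (w : Fin n → F) => Cyl r t n (fun i => (w i : ι)))
    (Eventually.of_forall fun n w => by
      refine (ediam_Cyl h n _).trans ?_
      rw [ENNReal.ofReal_mul (by positivity)]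
      have : ENNReal.ofReal 2 = 2 := by norm_num
      rw [this]
      gcongr
      exact hprod n w)
    (Eventually.of_forall fun n => by
      rintro x ⟨ω, hω, rfl⟩
      rw [mem_iUnion]
      exact ⟨fun i : Fin n => ⟨ω i, hω i⟩, P_mem_Cyl h n ω⟩)
  have hbound : ∀ n : ℕ, ∑' w : Fin n → F, Metric.ediam (Cyl r t n (fun i => (w i : ι))) ^ (s : ℝ)
      ≤ 2 ^ (s : ℝ) := by
    intro n
    calc _ ≤ ∑' w : Fin n → F, (∏ i, ENNReal.ofReal (r (w i)) ^ (s : ℝ)) * 2 ^ (s : ℝ) := by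
          apply ENNReal.tsum_le_tsum
          intro w
          calc _ ≤ ((∏ i, ENNReal.ofReal (r (w i))) * 2) ^ (s : ℝ) := by
                apply ENNReal.rpow_le_rpow (ediam_Cyl h n _) s.coe_nonneg
            _ = _ := by
                rw [ENNReal.mul_rpow_of_nonneg _ _ s.coe_nonneg,
                  ENNReal.prod_rpow_of_nonneg s.coe_nonneg]
      _ = (∑' e : F, ENNReal.ofReal (r e) ^ (s : ℝ)) ^ n * 2 ^ (s : ℝ) := by
          rw [ENNReal.tsum_mul_right, tsum_words n (fun e : F => ENNReal.ofReal (r e) ^ (s : ℝ))]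
      _ ≤ 1 * 2 ^ (s : ℝ) := by
          gcongr
          exact pow_le_one₀ (by positivity) hs
      _ = _ := one_mul _
  have : Measure.hausdorffMeasure (s : ℝ) (K r t F) ≤ 2 ^ (s : ℝ) := by
    refine key.trans ?_
    refine (liminf_le_liminf (Eventually.of_forall hbound)).trans ?_
    simp
  refine ne_top_of_le_ne_top ?_ this
  exact ENNReal.rpow_ne_top_of_nonneg s.coe_nonneg (by norm_num)

end Pool.Agent.Lib.MP_b5d711_an
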