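import Pool.Agent.Lib.MP_b5d711_an.Spectrum

set_option autoImplicit false

open Set MeasureTheory Filter Topology
open scoped ENNReal NNReal

namespace Pool.Agent.Lib.MP_b5d711_an

/-- greedy partial sums -/
noncomputable def greedy (a : ℕ → ℝ) : ℕ → ℝ
  | 0 => 0
  | n + 1 => if greedy a n + a n ≤ 1 then greedy a n + a n else greedy a n

lemma greedy_le_one (a : ℕ → ℝ) (n : ℕ) : greedy a n ≤ 1 := by
  induction n with
  | zero => simp [greedy]
  | succ n ih => rw [greedy]; split_ifs with h; exacts [h, ih]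

lemma greedy_eq (a : ℕ → ℝ) (n : ℕ) :
    greedy a n = ∑ i ∈ Finset.range n, ({n | greedy a n + a n ≤ 1} : Set ℕ).indicator a i := by
  induction n with
  | zero => simp [greedy]
  | succ n ih =>
    rw [greedy, Finset.sum_range_succ, ← ih]
    by_cases h : greedy a n + a n ≤ 1
    · rw [if_pos h, indicator_of_mem (by exact h)]
    · rw [if_neg h, indicator_of_notMem (by exact h), add_zero]

lemma greedy_mono {a : ℕ → ℝ} (ha : ∀ n, 0 ≤ a n) : Monotone (greedy a) := by
  apply monotone_nat_of_le_succ
  intro n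
  rw [greedy]
  split_ifs with h
  · linarith [ha n]
  · exact le_rfl

/-- Greedy lemma: a divergent series of positive terms tending to zero has a subseries with sum
exactly one. -/
theorem exists_subset_tsum_eq_one {a : ℕ → ℝ} (ha : ∀ n, 0 ≤ a n) (h0 : Tendsto a atTop (𝓝 0))
    (hns : ¬ Summable a) :
    ∃ F : Set ℕ, HasSum (F.indicator a) 1 := by
  set F : Set ℕ := {n | greedy a n + a n ≤ 1} with hF
  refine ⟨F, ?_⟩
  have hind : ∀ n, 0 ≤ F.indicator a n := fun n => indicator_nonneg (fun n _ => ha n) n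
  rw [hasSum_iff_tendsto_nat_of_nonneg hind]
  have e : (fun n => ∑ i ∈ Finset.range n, F.indicator a i) = greedy a := by
    ext n; rw [greedy_eq a n]
  rw [e]
  have hb : BddAbove (range (greedy a)) := ⟨1, by rintro _ ⟨n, rfl⟩; exact greedy_le_one a n⟩
  have hlim := tendsto_atTop_ciSup (greedy_mono ha) hb
  set L := ⨆ n, greedy a n with hL
  have hL1 : L ≤ 1 := ciSup_le (greedy_le_one a)
  rcases eq_or_lt_of_le hL1 with h1 | h1
  · rwa [h1] at hlim
  exfalso
  apply hns
  -- eventually all indices are in F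
  have hev : ∀ᶠ n in atTop, a n < 1 - L := h0.eventually_lt_const (by linarith)
  obtain ⟨N, hN⟩ := eventually_atTop.1 hev
  have hmem : ∀ n, N ≤ n → n ∈ F := by
    intro n hn
    have h2 := hN n hn
    have h3 : greedy a n ≤ L := le_ciSup hb n
    show greedy a n + a n ≤ 1
    linarith
  have hs : Summable (F.indicator a) := by
    have := (hasSum_iff_tendsto_nat_of_nonneg hind L).2 (by rw [e]; exact hlim)
    exact this.summable
  have h4 := (summable_nat_add_iff N).2 hs
  have h5 : (fun n => F.indicator a (n + N)) = fun n => a (n + N) := by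
    ext n; exact indicator_of_mem (hmem _ (by omega)) a
  rw [h5] at h4
  exact (summable_nat_add_iff N).1 h4

theorem mem_D_of_divergent {r t : ℕ → ℝ} (h : Sys r t) {x : ℝ} (hx : 0 < x)
    (hr0 : Tendsto r atTop (𝓝 0)) (hns : ¬ Summable (fun n => r n ^ x)) : x ∈ D r t := by
  have ha : ∀ n, 0 ≤ r n ^ x := fun n => Real.rpow_nonneg (h.r_pos n).le _
  have h0 : Tendsto (fun n => r n ^ x) atTop (𝓝 0) := by
    have := hr0.rpow_const (p := x) (Or.inr hx.le)
    rwa [Real.zero_rpow hx.ne'] at this
  obtain ⟨F, hF⟩ := exists_subset_tsum_eq_one ha h0 hns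
  have hne : F.Nonempty := by
    by_contra hcon
    rw [not_nonempty_iff_eq_empty] at hcon
    rw [hcon] at hF
    simp only [indicator_empty] at hF
    have := hF.unique hasSum_zero
    norm_num at this
  refine ⟨hx.le, F, hne, dimH_K_eq h F x hx.le ?_⟩
  rw [tsum_subtype F (fun e => ENNReal.ofReal (r e) ^ x)]
  have e1 : ∀ n, F.indicator (fun e => ENNReal.ofReal (r e) ^ x) n
      = ENNReal.ofReal (F.indicator (fun n => r n ^ x) n) := by
    intro n
    by_cases hn : n ∈ F
    · rw [indicator_of_mem hn, indicator_of_mem hn, ENNReal.ofReal_rpow_of_pos (h.r_pos _)]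
    · rw [indicator_of_notMem hn, indicator_of_notMem hn, ENNReal.ofReal_zero]
  rw [tsum_congr e1, ← ENNReal.ofReal_tsum_of_nonneg
    (fun n => indicator_nonneg (fun n _ => ha n) n) hF.summable, hF.tsum_eq, ENNReal.ofReal_one]

end Pool.Agent.Lib.MP_b5d711_an
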