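import Pool.Agent.Lib.MP_b5d711_an.Core

set_option autoImplicit false

open Set MeasureTheory Filter Topology
open scoped ENNReal NNReal

namespace Pool.Agent.Lib.MP_b5d711_an

variable {ι : Type} {r t : ι → ℝ}

/-- tiling of `[0,1]` -/
lemma exists_tile (p : ℕ → ℝ) (N : ℕ) (hN : ∑ j ∈ Finset.range N, p j = 1)
    {y : ℝ} (hy0 : 0 ≤ y) (hy1 : y ≤ 1) :
    ∃ i < N, ∑ j ∈ Finset.range i, p j ≤ y ∧ y ≤ ∑ j ∈ Finset.range (i + 1), p j := by
  classical
  have hN0 : 0 < N := by
    rcases Nat.eq_zero_or_pos N with rfl | h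
    · simp at hN
    · exact h
  have hex : ∃ i, y ≤ ∑ j ∈ Finset.range (i + 1), p j := by
    refine ⟨N - 1, ?_⟩
    rw [Nat.sub_add_cancel hN0, hN]; exact hy1
  refine ⟨Nat.find hex, ?_, ?_, Nat.find_spec hex⟩
  · have : Nat.find hex ≤ N - 1 := Nat.find_min' hex (by rw [Nat.sub_add_cancel hN0, hN]; exact hy1)
    omega
  · rcases Nat.eq_zero_or_pos (Nat.find hex) with h | h
    · rw [h]; simpa using hy0
    · have := Nat.find_min hex (m := Nat.find hex - 1) (by omega)
      rw [Nat.sub_add_cancel h] at this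
      linarith

/-- Abstract lower bound: digits and separation. -/
theorem le_dimH_of_digits (h : Sys r t) (F : Finset ι) (hne : F.Nonempty) (s : ℝ≥0) (hs : 0 < s)
    (hsum : 1 ≤ ∑ e ∈ F, r e ^ (s : ℝ)) : (s : ℝ≥0∞) ≤ dimH (K r t (F : Set ι)) := by
  classical
  obtain ⟨a0, ha0⟩ := hne
  have hs' : (0 : ℝ) < s := by exact_mod_cast hs
  set N := F.card with hN
  set σ := F.equivFin.symm with hσ
  set e : ℕ → ι := fun i => if hi : i < N then (σ ⟨i, hi⟩ : ι) else a0 with he
  have heF : ∀ i, e i ∈ F := by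
    intro i
    simp only [he]
    split_ifs with hi
    · exact (σ ⟨i, hi⟩).2
    · exact ha0
  have heinj : ∀ i j, i < N → j < N → e i = e j → i = j := by
    intro i j hi hj hij
    simp only [he, hi, hj, dif_pos] at hij
    have := σ.injective (Subtype.ext hij)
    simpa using this
  set c := ∑ e ∈ F, r e ^ (s : ℝ) with hc
  have hc0 : 0 < c := by linarith
  set p : ℕ → ℝ := fun i => r (e i) ^ (s : ℝ) / c with hp
  have hppos : ∀ i, 0 < p i := fun i => div_pos (Real.rpow_pos_of_pos (h.r_pos _) _) hc0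
  have hple : ∀ i, p i ≤ r (e i) ^ (s : ℝ) := fun i =>
    div_le_self (Real.rpow_nonneg (h.r_pos _).le _) hsum
  have hpsum : ∑ j ∈ Finset.range N, p j = 1 := by
    simp only [hp]
    rw [← Finset.sum_div, div_eq_one_iff_eq hc0.ne', hc, ← Fin.sum_univ_eq_sum_range
      (fun j => r (e j) ^ (s : ℝ)) N]
    rw [← Finset.sum_coe_sort F, ← σ.sum_comp]
    apply Finset.sum_congr rfl
    intro i _
    simp [he]
  -- digit function
  have hdg : ∀ y : ℝ, ∃ i, y ∈ Icc (0 : ℝ) 1 →
      (i < N ∧ ∑ j ∈ Finset.range i, p j ≤ y ∧ y ≤ ∑ j ∈ Finset.range (i + 1), p j) := by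
    intro y
    by_cases hy : y ∈ Icc (0 : ℝ) 1
    · obtain ⟨i, h1, h2, h3⟩ := exists_tile p N hpsum hy.1 hy.2
      exact ⟨i, fun _ => ⟨h1, h2, h3⟩⟩
    · exact ⟨0, fun h => absurd h hy⟩
  choose dg hdg using hdg
  set T : ℝ → ℝ := fun y => (y - ∑ j ∈ Finset.range (dg y), p j) / p (dg y) with hT
  have hTmem : ∀ y ∈ Icc (0 : ℝ) 1, T y ∈ Icc (0 : ℝ) 1 := by
    intro y hy
    obtain ⟨h1, h2, h3⟩ := hdg y hy
    rw [Finset.sum_range_succ] at h3
    constructor
    · exact div_nonneg (by linarith) (hppos _).le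
    · simp only [hT]
      rw [div_le_one (hppos _)]; linarith
  have hTeq : ∀ y, y = (∑ j ∈ Finset.range (dg y), p j) + p (dg y) * T y := by
    intro y
    simp only [hT]
    rw [mul_div_cancel₀ _ (hppos _).ne']; ring
  have hTit : ∀ y ∈ Icc (0 : ℝ) 1, ∀ n, T^[n] y ∈ Icc (0 : ℝ) 1 := by
    intro y hy n
    induction n with
    | zero => simpa using hy
    | succ n ih => rw [Function.iterate_succ_apply']; exact hTmem _ ih
  set om : ℝ → ℕ → ι := fun y n => e (dg (T^[n] y)) with hom
  set κ : ℝ → ℝ := fun y => P r t (om y) with hκ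
  -- separation constant
  obtain ⟨δ, hδ0, hδ⟩ : ∃ δ > 0, ∀ a ∈ F, ∀ b ∈ F, a ≠ b → δ ≤ |t a - t b| - r a - r b := by
    by_cases hFF : (F.offDiag).Nonempty
    · obtain ⟨⟨x1, x2⟩, hx, hmin⟩ := Finset.exists_min_image F.offDiag
        (fun q => |t q.1 - t q.2| - r q.1 - r q.2) hFF
      rw [Finset.mem_offDiag] at hx
      refine ⟨|t x1 - t x2| - r x1 - r x2, ?_, ?_⟩
      · have := h.sep x1 x2 hx.2.2; linarith
      · intro a ha b hb hab
        exact hmin (a, b) (by rw [Finset.mem_offDiag]; exact ⟨ha, hb, hab⟩)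
    · refine ⟨1, one_pos, ?_⟩
      intro a ha b hb hab
      exact absurd ⟨(a, b), by rw [Finset.mem_offDiag]; exact ⟨ha, hb, hab⟩⟩ hFF
  -- agreement
  have hagree : ∀ (n : ℕ) (y y' : ℝ), (∀ k < n, dg (T^[k] y) = dg (T^[k] y')) →
      y - y' = (∏ k ∈ Finset.range n, p (dg (T^[k] y))) * (T^[n] y - T^[n] y') ∧
      κ y - κ y' = (∏ k ∈ Finset.range n, r (om y k)) *
        (P r t (sh (om y) n) - P r t (sh (om y') n)) := by
    intro n y y' hk
    induction n with
    | zero =>
      simp only [Finset.range_zero, Finset.prod_empty, one_mul, Function.iterate_zero, id,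
        sh_zero, true_and]
      rfl
    | succ n ih =>
      obtain ⟨ih1, ih2⟩ := ih (fun k hk' => hk k (by omega))
      have hn := hk n (by omega)
      constructor
      · rw [ih1, Finset.prod_range_succ, Function.iterate_succ_apply', Function.iterate_succ_apply']
        have e1 := hTeq (T^[n] y)
        have e2 := hTeq (T^[n] y')
        rw [← hn] at e2
        have e3 : T^[n] y - T^[n] y' = p (dg (T^[n] y)) * (T (T^[n] y) - T (T^[n] y')) := by
          linear_combination e1 - e2
        rw [e3]; ring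
      · rw [ih2, Finset.prod_range_succ]
        have e1 := P_sh h (om y) n
        have e2 := P_sh h (om y') n
        have e4 : om y n = om y' n := by simp only [hom]; rw [hn]
        rw [← e4] at e2
        rw [e1, e2]; ring
  have hmain : ∀ y ∈ Icc (0 : ℝ) 1, ∀ y' ∈ Icc (0 : ℝ) 1,
      |y - y'| ≤ (|κ y - κ y'| / δ) ^ (s : ℝ) := by
    intro y hy y' hy'
    by_cases hyy : y = y'
    · rw [hyy]; simp
      exact Real.rpow_nonneg (by simp) _
    have hT01 : ∀ n, |T^[n] y - T^[n] y'| ≤ 1 := by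
      intro n
      have h1 := hTit y hy n
      have h2 := hTit y' hy' n
      rw [abs_le]; constructor <;> linarith [h1.1, h1.2, h2.1, h2.2]
    have hprodle : ∀ n, ∏ k ∈ Finset.range n, p (dg (T^[k] y))
        ≤ (∏ k ∈ Finset.range n, r (om y k)) ^ (s : ℝ) := by
      intro n
      rw [← Real.finsetProd_rpow _ _ (fun _ _ => (h.r_pos _).le)]
      apply Finset.prod_le_prod (fun _ _ => (hppos _).le)
      intro k _
      exact hple _
    have hex : ∃ n, dg (T^[n] y) ≠ dg (T^[n] y') := by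
      by_contra hcon
      push Not at hcon
      have hsmall : ∀ n : ℕ, |y - y'| ≤ ((1 / 2 : ℝ) ^ (s : ℝ)) ^ n := by
        intro n
        obtain ⟨h1, -⟩ := hagree n y y' (fun k _ => hcon k)
        rw [h1, abs_mul]
        have h2 : |∏ k ∈ Finset.range n, p (dg (T^[k] y))| ≤ ((1 / 2 : ℝ) ^ (s : ℝ)) ^ n := by
          rw [abs_of_pos (Finset.prod_pos fun _ _ => hppos _)]
          refine (hprodle n).trans ?_
          rw [← Real.rpow_natCast ((1 / 2 : ℝ) ^ (s : ℝ)), ← Real.rpow_mul (by norm_num),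
            mul_comm, Real.rpow_mul (by norm_num), Real.rpow_natCast]
          exact Real.rpow_le_rpow (prod_nonneg h _ n).le (prod_le h _ n) hs'.le
        calc _ ≤ ((1 / 2 : ℝ) ^ (s : ℝ)) ^ n * 1 :=
              mul_le_mul h2 (hT01 n) (abs_nonneg _) (by positivity)
          _ = _ := mul_one _
      have hlt : (1 / 2 : ℝ) ^ (s : ℝ) < 1 := Real.rpow_lt_one (by norm_num) (by norm_num) hs'
      have hlim := tendsto_pow_atTop_nhds_zero_of_lt_one
        (Real.rpow_nonneg (by norm_num : (0 : ℝ) ≤ 1 / 2) (s : ℝ)) hlt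
      have := ge_of_tendsto' hlim hsmall
      have h0 : y - y' = 0 := abs_eq_zero.1 (le_antisymm this (abs_nonneg _))
      exact hyy (by linarith)
    set n := Nat.find hex with hn
    have hn1 : dg (T^[n] y) ≠ dg (T^[n] y') := Nat.find_spec hex
    have hn2 : ∀ k < n, dg (T^[k] y) = dg (T^[k] y') := by
      intro k hk
      have := Nat.find_min hex hk
      push Not at this
      exact this
    obtain ⟨h1, h2⟩ := hagree n y y' hn2
    have hR := prod_nonneg h (om y) n
    have hsep : δ ≤ |P r t (sh (om y) n) - P r t (sh (om y') n)| := by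
      rw [P_sh h (om y) n, P_sh h (om y') n]
      have ha : om y n ∈ F := heF _
      have hb : om y' n ∈ F := heF _
      have hab : om y n ≠ om y' n := by
        intro hab
        exact hn1 (heinj _ _ (hdg _ (hTit y hy n)).1 (hdg _ (hTit y' hy' n)).1 hab)
      have hd := hδ _ ha _ hb hab
      have b1 := abs_P_le h (sh (om y) (n + 1))
      have b2 := abs_P_le h (sh (om y') (n + 1))
      have ra := h.r_pos (om y n)
      have rb := h.r_pos (om y' n)
      have c1 : |r (om y n) * P r t (sh (om y) (n + 1))| ≤ r (om y n) := by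
        rw [abs_mul, abs_of_pos ra]; nlinarith
      have c2 : |r (om y' n) * P r t (sh (om y') (n + 1))| ≤ r (om y' n) := by
        rw [abs_mul, abs_of_pos rb]; nlinarith
      have tri : |t (om y n) - t (om y' n)| ≤
          |r (om y n) * P r t (sh (om y) (n + 1)) + t (om y n) -
            (r (om y' n) * P r t (sh (om y') (n + 1)) + t (om y' n))|
          + |r (om y n) * P r t (sh (om y) (n + 1))|
          + |r (om y' n) * P r t (sh (om y') (n + 1))| := by
        have e1 : t (om y n) - t (om y' n) =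
          (r (om y n) * P r t (sh (om y) (n + 1)) + t (om y n) -
            (r (om y' n) * P r t (sh (om y') (n + 1)) + t (om y' n)))
          + (-(r (om y n) * P r t (sh (om y) (n + 1))))
          + (r (om y' n) * P r t (sh (om y') (n + 1))) := by ring
        rw [e1]
        refine (abs_add_three _ _ _).trans ?_
        rw [abs_neg]
      linarith
    have hk : δ * ∏ k ∈ Finset.range n, r (om y k) ≤ |κ y - κ y'| := by
      rw [h2, abs_mul, abs_of_pos hR, mul_comm]
      exact mul_le_mul_of_nonneg_left hsep hR.le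
    calc |y - y'| ≤ ∏ k ∈ Finset.range n, p (dg (T^[k] y)) := by
          rw [h1, abs_mul, abs_of_pos (Finset.prod_pos fun _ _ => hppos _)]
          exact mul_le_of_le_one_right (Finset.prod_nonneg fun _ _ => (hppos _).le) (hT01 n)
      _ ≤ (∏ k ∈ Finset.range n, r (om y k)) ^ (s : ℝ) := hprodle n
      _ ≤ (|κ y - κ y'| / δ) ^ (s : ℝ) := by
          apply Real.rpow_le_rpow hR.le _ hs'.le
          rw [le_div_iff₀ hδ0]; linarith
  -- Hölder inverse
  have hinj : InjOn κ (Icc 0 1) := by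
    intro y hy y' hy' hyy
    have := hmain y hy y' hy'
    rw [hyy] at this
    simp only [sub_self, abs_zero, zero_div] at this
    rw [Real.zero_rpow hs'.ne'] at this
    have h0 : y - y' = 0 := abs_eq_zero.1 (le_antisymm this (abs_nonneg _))
    linarith
  set g := Function.invFunOn κ (Icc 0 1) with hg
  have hgk : ∀ y ∈ Icc (0 : ℝ) 1, g (κ y) = y := fun y hy => hinj.leftInvOn_invFunOn hy
  have hhold : HolderOnWith (Real.toNNReal (δ⁻¹ ^ (s : ℝ))) s g (κ '' Icc 0 1) := by
    rintro _ ⟨y, hy, rfl⟩ _ ⟨y', hy', rfl⟩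
    rw [hgk y hy, hgk y' hy', edist_dist, edist_dist, Real.dist_eq, Real.dist_eq]
    have e1 : ((Real.toNNReal (δ⁻¹ ^ (s : ℝ)) : ℝ≥0) : ℝ≥0∞) = ENNReal.ofReal (δ⁻¹ ^ (s : ℝ)) := rfl
    rw [e1, ENNReal.ofReal_rpow_of_nonneg (abs_nonneg _) hs'.le,
      ← ENNReal.ofReal_mul (by positivity)]
    apply ENNReal.ofReal_le_ofReal
    refine (hmain y hy y' hy').trans (le_of_eq ?_)
    rw [div_eq_mul_inv, Real.mul_rpow (abs_nonneg _) (by positivity), mul_comm]
  have himg : g '' (κ '' Icc 0 1) = Icc 0 1 := by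
    ext y
    constructor
    · rintro ⟨_, ⟨y, hy, rfl⟩, rfl⟩
      rw [hgk y hy]; exact hy
    · intro hy
      exact ⟨κ y, ⟨y, hy, rfl⟩, hgk y hy⟩
  have hdim := hhold.dimH_image_le hs
  rw [himg] at hdim
  have h1 : dimH (Icc (0 : ℝ) 1) = 1 := by
    have := Real.dimH_of_nonempty_interior (E := ℝ) (s := Icc (0 : ℝ) 1) (by
      rw [interior_Icc]; exact ⟨1 / 2, by norm_num, by norm_num⟩)
    simpa using this
  rw [h1] at hdim
  have h2 : (s : ℝ≥0∞) ≤ dimH (κ '' Icc 0 1) := by
    rw [ENNReal.le_div_iff_mul_le (Or.inl (by simpa using hs.ne')) (Or.inl (by simp))] at hdim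
    simpa using hdim
  refine h2.trans (dimH_mono ?_)
  rintro _ ⟨y, _, rfl⟩
  exact ⟨om y, fun n => heF _, rfl⟩

end Pool.Agent.Lib.MP_b5d711_an
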