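import Pool.Agent.Lib.MP_b5d711_an.Lower

set_option autoImplicit false

open Set MeasureTheory Filter Topology
open scoped ENNReal NNReal

namespace Pool.Agent.Lib.MP_b5d711_an

variable {ι : Type} {r t : ι → ℝ}

lemma tsum_ge_of_lt (h : Sys r t) (F : Set ι) {s x : ℝ} (hsx : s < x)
    (hx : 1 ≤ ∑' e : F, ENNReal.ofReal (r e) ^ x) :
    1 < ∑' e : F, ENNReal.ofReal (r e) ^ s := by
  have h1 : ∀ e : F, ENNReal.ofReal (2 ^ (x - s)) * ENNReal.ofReal (r e) ^ x
      ≤ ENNReal.ofReal (r e) ^ s := by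
    intro e
    have hr := h.r_pos e
    rw [ENNReal.ofReal_rpow_of_pos hr, ENNReal.ofReal_rpow_of_pos hr,
      ← ENNReal.ofReal_mul (by positivity)]
    apply ENNReal.ofReal_le_ofReal
    have e1 : r e ^ x = r e ^ s * r e ^ (x - s) := by rw [← Real.rpow_add hr]; congr 1; ring
    have e2 : (2 : ℝ) ^ (x - s) * r e ^ (x - s) ≤ 1 := by
      rw [← Real.mul_rpow (by norm_num) hr.le]
      apply Real.rpow_le_one (by positivity) _ (by linarith)
      have := h.r_le e; linarith
    rw [e1]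
    calc _ = ((2 : ℝ) ^ (x - s) * r e ^ (x - s)) * r e ^ s := by ring
      _ ≤ 1 * r e ^ s := mul_le_mul_of_nonneg_right e2 (Real.rpow_nonneg hr.le _)
      _ = _ := one_mul _
  have h2 : ENNReal.ofReal (2 ^ (x - s)) * ∑' e : F, ENNReal.ofReal (r e) ^ x
      ≤ ∑' e : F, ENNReal.ofReal (r e) ^ s := by
    rw [← ENNReal.tsum_mul_left]
    exact ENNReal.tsum_le_tsum h1
  refine lt_of_lt_of_le ?_ h2
  have h3 : (1 : ℝ≥0∞) < ENNReal.ofReal (2 ^ (x - s)) := by
    rw [← ENNReal.ofReal_one]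
    apply (ENNReal.ofReal_lt_ofReal_iff (by positivity)).2
    exact Real.one_lt_rpow (by norm_num) (by linarith)
  calc (1 : ℝ≥0∞) < ENNReal.ofReal (2 ^ (x - s)) := h3
    _ = ENNReal.ofReal (2 ^ (x - s)) * 1 := (mul_one _).symm
    _ ≤ _ := by gcongr

/-- Lower bound for the dimension, arbitrary alphabet. -/
theorem dimH_K_ge (h : Sys r t) (F : Set ι) (x : ℝ≥0)
    (hx : 1 ≤ ∑' e : F, ENNReal.ofReal (r e) ^ (x : ℝ)) : (x : ℝ≥0∞) ≤ dimH (K r t F) := by
  classical
  apply ENNReal.le_of_forall_nnreal_lt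
  intro s hs
  have hs' : s < x := by exact_mod_cast hs
  rcases eq_or_lt_of_le (bot_le : (⊥ : ℝ≥0) ≤ s) with h0 | h0
  · rw [← h0]; simp
  rw [bot_eq_zero] at h0
  have h1 := tsum_ge_of_lt h F (s := (s : ℝ)) (by exact_mod_cast hs') hx
  rw [ENNReal.tsum_eq_iSup_sum, lt_iSup_iff] at h1
  obtain ⟨S, hS⟩ := h1
  have hSne : S.Nonempty := by
    by_contra hcon
    rw [Finset.not_nonempty_iff_eq_empty] at hcon
    rw [hcon] at hS
    simp at hS
  set S' : Finset ι := S.map ⟨Subtype.val, Subtype.val_injective⟩ with hS'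
  have hsub : (S' : Set ι) ⊆ F := by
    intro e he
    rw [hS', Finset.coe_map] at he
    obtain ⟨e', _, rfl⟩ := he
    exact e'.2
  refine le_trans ?_ (dimH_mono (K_mono hsub))
  apply le_dimH_of_digits h S' (by rw [hS']; exact hSne.map) s h0
  rw [hS', Finset.sum_map]
  have h2 : ∑ e ∈ S, ENNReal.ofReal (r (e : ι)) ^ (s : ℝ)
      = ENNReal.ofReal (∑ e ∈ S, r (e : ι) ^ (s : ℝ)) := by
    rw [ENNReal.ofReal_sum_of_nonneg (fun _ _ => Real.rpow_nonneg (h.r_pos _).le _)]
    apply Finset.sum_congr rfl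
    intro e _
    rw [ENNReal.ofReal_rpow_of_pos (h.r_pos _)]
  rw [h2] at hS
  have := (ENNReal.one_le_ofReal.1 hS.le)
  simpa using this

theorem dimH_K_eq [Countable ι] (h : Sys r t) (F : Set ι) (x : ℝ) (hx0 : 0 ≤ x)
    (hx : ∑' e : F, ENNReal.ofReal (r e) ^ x = 1) : dimH (K r t F) = ENNReal.ofReal x := by
  have e : ((x.toNNReal : ℝ≥0) : ℝ) = x := Real.coe_toNNReal x hx0
  apply le_antisymm
  · exact dimH_K_le h F x.toNNReal (by rw [e, hx])
  · exact dimH_K_ge h F x.toNNReal (by rw [e, hx])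

/-- The dimension spectrum in one dimensional coordinates. -/
def D (r t : ι → ℝ) : Set ℝ :=
  {s | 0 ≤ s ∧ ∃ F : Set ι, F.Nonempty ∧ dimH (K r t F) = ENNReal.ofReal s}

lemma mem_D_of_finset [Countable ι] (h : Sys r t) (F : Finset ι) (hF : F.Nonempty) (x : ℝ)
    (hx0 : 0 ≤ x) (hx : ∑ e ∈ F, r e ^ x = 1) : x ∈ D r t := by
  refine ⟨hx0, F, hF, dimH_K_eq h _ x hx0 ?_⟩
  have e1 : ∑' e : (F : Set ι), ENNReal.ofReal (r e) ^ x = ∑ e ∈ F, ENNReal.ofReal (r e) ^ x :=
    Finset.tsum_subtype F (fun e => ENNReal.ofReal (r e) ^ x)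
  rw [e1]
  have h2 : ∑ e ∈ F, ENNReal.ofReal (r e) ^ x = ENNReal.ofReal (∑ e ∈ F, r e ^ x) := by
    rw [ENNReal.ofReal_sum_of_nonneg (fun _ _ => Real.rpow_nonneg (h.r_pos _).le _)]
    apply Finset.sum_congr rfl
    intro e _
    rw [ENNReal.ofReal_rpow_of_pos (h.r_pos _)]
  rw [h2, hx, ENNReal.ofReal_one]

/-- Partial pressure. -/
noncomputable def G (r : ι → ℝ) (S : Finset ι) (s : ℝ) : ℝ := ∑ e ∈ S, r e ^ s

lemma G_continuous (h : Sys r t) (S : Finset ι) : Continuous (G r S) := by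
  unfold G
  apply continuous_finsetSum
  intro e _
  exact Real.continuous_const_rpow (h.r_pos e).ne'

lemma G_decay (h : Sys r t) (S : Finset ι) {s s' : ℝ} (hss : s ≤ s') :
    G r S s' ≤ G r S s * (1 / 2) ^ (s' - s) := by
  unfold G
  rw [Finset.sum_mul]
  apply Finset.sum_le_sum
  intro e _
  have hr := h.r_pos e
  have : r e ^ s' = r e ^ s * r e ^ (s' - s) := by rw [← Real.rpow_add hr]; congr 1; ring
  rw [this]
  apply mul_le_mul_of_nonneg_left _ (Real.rpow_nonneg hr.le _)
  exact Real.rpow_le_rpow hr.le (h.r_le e) (by linarith)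

/-- The covering pieces. -/
def piece (r : ι → ℝ) (T : ℝ) (S : Finset ι) : Set ℝ := {s | 1 - T ≤ G r S s ∧ G r S s ≤ 1}

lemma ediam_piece (h : Sys r t) {T : ℝ} (hT0 : 0 ≤ T) (hT : T ≤ 1 / 2) (S : Finset ι) :
    Metric.ediam (piece r T S) ≤ ENNReal.ofReal (3 * T) := by
  apply Metric.ediam_le
  have key : ∀ x ∈ piece r T S, ∀ y ∈ piece r T S, x ≤ y → y - x ≤ 3 * T := by
    intro x hx y hy hxy
    have h1 := G_decay h S hxy
    have h2 : 1 - T ≤ (1 / 2 : ℝ) ^ (y - x) := by
      have hp : (0 : ℝ) ≤ (1 / 2 : ℝ) ^ (y - x) := by positivity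
      have := mul_le_mul_of_nonneg_right hx.2 hp
      linarith [hy.1]
    have hT1 : 0 < 1 - T := by linarith
    have h3 := Real.log_le_log hT1 h2
    rw [Real.log_rpow (by norm_num), Real.log_div (by norm_num) (by norm_num), Real.log_one,
      zero_sub] at h3
    have h4 : 1 - (1 - T)⁻¹ ≤ Real.log (1 - T) := Real.one_sub_inv_le_log_of_pos hT1
    have h5 : (1 - T)⁻¹ ≤ 1 + 2 * T := by
      rw [inv_le_iff_one_le_mul₀ hT1]; nlinarith
    have h6 := Real.log_two_gt_d9
    have h7 : (y - x) * Real.log 2 ≤ 2 * T := by nlinarith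
    nlinarith
  intro x hx y hy
  rw [edist_dist, Real.dist_eq]
  apply ENNReal.ofReal_le_ofReal
  rcases le_total x y with hxy | hxy
  · rw [abs_sub_comm, abs_of_nonneg (by linarith)]; exact key x hx y hy hxy
  · rw [abs_of_nonneg (by linarith)]; exact key y hy x hx hxy

lemma tsum_subset_eq_finset (h : Sys r t) (S : Finset ι) (s : ℝ) :
    ∑ e ∈ S, ENNReal.ofReal (r e) ^ s = ENNReal.ofReal (G r S s) := by
  unfold G
  rw [ENNReal.ofReal_sum_of_nonneg (fun _ _ => Real.rpow_nonneg (h.r_pos _).le _)]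
  apply Finset.sum_congr rfl
  intro e _
  rw [ENNReal.ofReal_rpow_of_pos (h.r_pos _)]

lemma mem_piece [Countable ι] (h : Sys r t) {s0 T : ℝ} (hs0 : 0 ≤ s0) (hT0 : 0 ≤ T)
    (M : Finset ι)
    (htail : ∑' e : {e // e ∉ M}, ENNReal.ofReal (r e) ^ s0 ≤ ENNReal.ofReal T)
    {x : ℝ} (hx : s0 < x) {F : Set ι} (hF : dimH (K r t F) = ENNReal.ofReal x) :
    ∃ S ∈ M.powerset, x ∈ piece r T S := by
  classical
  have hx0 : 0 < x := lt_of_le_of_lt hs0 hx
  set S := M.filter (fun e => e ∈ F) with hS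
  refine ⟨S, Finset.mem_powerset.2 (Finset.filter_subset _ _), ?_, ?_⟩
  · by_contra hcon
    push Not at hcon
    -- find s slightly below x
    have hcont := (G_continuous h S).tendsto x
    have hev : ∀ᶠ s in 𝓝 x, G r S s < 1 - T := hcont.eventually_lt_const hcon
    have hev2 : ∀ᶠ s in 𝓝 x, s0 < s := eventually_gt_nhds hx
    have hev3 : ∀ᶠ s in 𝓝[<] x, (G r S s < 1 - T ∧ s0 < s) ∧ s ∈ Iio x :=
      ((hev.and hev2).filter_mono nhdsWithin_le_nhds).and self_mem_nhdsWithin
    obtain ⟨s, hs, hsx⟩ := hev3.exists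
    have hs00 : 0 ≤ s := by linarith [hs.2]
    have hle : ∑' e : F, ENNReal.ofReal (r e) ^ s ≤ 1 := by
      have h1 : ∑' e : F, ENNReal.ofReal (r e) ^ s
          ≤ ENNReal.ofReal (G r S s) + ∑' e : {e // e ∉ M}, ENNReal.ofReal (r e) ^ s := by
        have e1 : ∑' e : F, ENNReal.ofReal (r e) ^ s
            = ∑' e, F.indicator (fun e => ENNReal.ofReal (r e) ^ s) e := by
          rw [tsum_subtype F (fun e => ENNReal.ofReal (r e) ^ s)]
        have e2 : ∑' e : {e // e ∉ M}, ENNReal.ofReal (r e) ^ s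
            = ∑' e, ({e | e ∉ M} : Set ι).indicator (fun e => ENNReal.ofReal (r e) ^ s) e := by
          exact tsum_subtype ({e | e ∉ M} : Set ι) (fun e => ENNReal.ofReal (r e) ^ s)
        have e3 : ENNReal.ofReal (G r S s)
            = ∑' e, (S : Set ι).indicator (fun e => ENNReal.ofReal (r e) ^ s) e := by
          rw [← tsum_subtype (S : Set ι) (fun e => ENNReal.ofReal (r e) ^ s),
            ← tsum_subset_eq_finset h S s]
          exact (Finset.tsum_subtype S (fun e => ENNReal.ofReal (r e) ^ s)).symm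
        rw [e1, e2, e3, ← ENNReal.tsum_add]
        apply ENNReal.tsum_le_tsum
        intro e
        by_cases heF : e ∈ F
        · rw [indicator_of_mem heF]
          by_cases heM : e ∈ M
          · have : e ∈ (S : Set ι) := by
              rw [hS]; simp [heM, heF]
            rw [indicator_of_mem this]
            exact le_self_add
          · have : e ∈ ({e | e ∉ M} : Set ι) := heM
            rw [indicator_of_mem this]
            exact le_add_self
        · rw [indicator_of_notMem heF]; exact bot_le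
      have h2 : ∑' e : {e // e ∉ M}, ENNReal.ofReal (r e) ^ s ≤ ENNReal.ofReal T := by
        refine le_trans ?_ htail
        apply ENNReal.tsum_le_tsum
        intro e
        rw [ENNReal.ofReal_rpow_of_pos (h.r_pos _), ENNReal.ofReal_rpow_of_pos (h.r_pos _)]
        apply ENNReal.ofReal_le_ofReal
        exact Real.rpow_le_rpow_of_exponent_ge (h.r_pos _) (by have := h.r_le e; linarith) hs.2.le
      calc _ ≤ ENNReal.ofReal (G r S s) + ENNReal.ofReal T := h1.trans (by gcongr)
        _ = ENNReal.ofReal (G r S s + T) := by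
            rw [ENNReal.ofReal_add _ hT0]
            exact Finset.sum_nonneg fun _ _ => Real.rpow_nonneg (h.r_pos _).le _
        _ ≤ ENNReal.ofReal 1 := ENNReal.ofReal_le_ofReal (by linarith [hs.1])
        _ = 1 := ENNReal.ofReal_one
    have e : ((s.toNNReal : ℝ≥0) : ℝ) = s := Real.coe_toNNReal s hs00
    have h3 := dimH_K_le h F s.toNNReal (by rw [e]; exact hle)
    rw [hF] at h3
    have h4 : ENNReal.ofReal x ≤ ENNReal.ofReal s := h3
    rw [ENNReal.ofReal_le_ofReal_iff hs00] at h4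
    exact absurd hsx (not_lt.2 h4)
  · by_contra hcon
    push Not at hcon
    have hcont := (G_continuous h S).tendsto x
    have hev : ∀ᶠ s in 𝓝 x, 1 < G r S s := hcont.eventually_const_lt hcon
    have hev3 : ∀ᶠ s in 𝓝[>] x, (1 < G r S s) ∧ s ∈ Ioi x :=
      (hev.filter_mono nhdsWithin_le_nhds).and self_mem_nhdsWithin
    obtain ⟨s, hs, hsx⟩ := hev3.exists
    have hsx' : x < s := hsx
    have hs00 : 0 ≤ s := by linarith
    have e : ((s.toNNReal : ℝ≥0) : ℝ) = s := Real.coe_toNNReal s hs00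
    have hge : 1 ≤ ∑' e : F, ENNReal.ofReal (r e) ^ s := by
      have e1 : ENNReal.ofReal (G r S s)
            = ∑' e, (S : Set ι).indicator (fun e => ENNReal.ofReal (r e) ^ s) e := by
          rw [← tsum_subtype (S : Set ι) (fun e => ENNReal.ofReal (r e) ^ s),
            ← tsum_subset_eq_finset h S s]
          exact (Finset.tsum_subtype S (fun e => ENNReal.ofReal (r e) ^ s)).symm
      have e2 : ∑' e, (S : Set ι).indicator (fun e => ENNReal.ofReal (r e) ^ s) e
          ≤ ∑' e, F.indicator (fun e => ENNReal.ofReal (r e) ^ s) e := by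
        apply ENNReal.tsum_le_tsum
        intro e
        apply indicator_le_indicator_of_subset
        · intro e he
          rw [hS] at he
          simp at he
          exact he.2
        · intro _; exact bot_le
      rw [tsum_subtype F (fun e => ENNReal.ofReal (r e) ^ s)]
      refine le_trans ?_ e2
      rw [← e1]
      exact ENNReal.one_le_ofReal.2 hs.le
    have h3 := dimH_K_ge h F s.toNNReal (by rw [e]; exact hge)
    rw [hF] at h3
    have h4 : ENNReal.ofReal s ≤ ENNReal.ofReal x := h3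
    rw [ENNReal.ofReal_le_ofReal_iff hx0.le] at h4
    linarith

/-- Above `s0` the spectrum has dimension zero. -/
theorem dimH_D_above [Countable ι] (h : Sys r t) {s0 : ℝ} (hs0 : 0 ≤ s0) (M : ℕ → Finset ι)
    (T : ℕ → ℝ) (hT0 : ∀ k, 0 ≤ T k) (hT : ∀ k, T k ≤ 1 / 2)
    (htail : ∀ k, ∑' e : {e // e ∉ M k}, ENNReal.ofReal (r e) ^ s0 ≤ ENNReal.ofReal (T k))
    (hlim : ∀ u : ℝ, 0 < u → Tendsto (fun k => (2 : ℝ) ^ (M k).card * (3 * T k) ^ u) atTop (𝓝 0)) :
    dimH (D r t ∩ Ioi s0) = 0 := by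
  classical
  have hT' : Tendsto (fun k => ENNReal.ofReal (3 * T k)) atTop (𝓝 0) := by
    rw [← ENNReal.ofReal_zero]
    apply ENNReal.tendsto_ofReal
    have h1 := hlim 1 one_pos
    refine squeeze_zero (fun k => by have := hT0 k; positivity) (fun k => ?_) h1
    rw [Real.rpow_one]
    have h2 : (1 : ℝ) ≤ 2 ^ (M k).card := one_le_pow₀ (by norm_num)
    have h3 : 0 ≤ 3 * T k := by have := hT0 k; positivity
    nlinarith
  have hall : ∀ u : ℝ≥0, 0 < u → dimH (D r t ∩ Ioi s0) ≤ u := by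
    intro u hu
    have hu' : (0 : ℝ) < u := by exact_mod_cast hu
    apply dimH_le_of_hausdorffMeasure_ne_top
    have key := Measure.hausdorffMeasure_le_liminf_sum (u : ℝ) (D r t ∩ Ioi s0) (l := atTop)
      (ι := fun k => {S // S ∈ (M k).powerset})
      (fun k => ENNReal.ofReal (3 * T k)) hT'
      (fun k S => piece r (T k) S.1)
      (Eventually.of_forall fun k S => ediam_piece h (hT0 k) (hT k) S.1)
      (Eventually.of_forall fun k => by
        rintro x ⟨⟨_, F, _, hF⟩, hx⟩
        obtain ⟨S, hS, hxS⟩ := mem_piece h hs0 (hT0 k) (M k) (htail k) hx hF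
        rw [mem_iUnion]
        exact ⟨⟨S, hS⟩, hxS⟩)
    have hle : ∀ k, ∑ S : {S // S ∈ (M k).powerset}, Metric.ediam (piece r (T k) S.1) ^ (u : ℝ)
        ≤ ENNReal.ofReal ((2 : ℝ) ^ (M k).card * (3 * T k) ^ (u : ℝ)) := by
      intro k
      have h3 : 0 ≤ 3 * T k := by have := hT0 k; positivity
      calc _ ≤ ∑ _S : {S // S ∈ (M k).powerset}, ENNReal.ofReal (3 * T k) ^ (u : ℝ) := by
            apply Finset.sum_le_sum
            intro S _
            exact ENNReal.rpow_le_rpow (ediam_piece h (hT0 k) (hT k) S.1) hu'.le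
        _ = ENNReal.ofReal ((2 : ℝ) ^ (M k).card * (3 * T k) ^ (u : ℝ)) := by
            rw [Finset.sum_const, Finset.card_univ, Fintype.card_coe, Finset.card_powerset,
              nsmul_eq_mul]
            generalize 3 * T k = q at h3
            rw [ENNReal.ofReal_mul (by positivity),
              ENNReal.ofReal_rpow_of_nonneg h3 hu'.le, ENNReal.ofReal_pow (by norm_num)]
            simp
    have hlim2 : Tendsto (fun k => ENNReal.ofReal ((2 : ℝ) ^ (M k).card * (3 * T k) ^ (u : ℝ)))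
        atTop (𝓝 0) := by
      rw [← ENNReal.ofReal_zero]
      exact ENNReal.tendsto_ofReal (hlim u hu')
    have h0 : Measure.hausdorffMeasure (u : ℝ) (D r t ∩ Ioi s0) ≤ 0 := by
      refine key.trans ((liminf_le_liminf (Eventually.of_forall hle)).trans ?_)
      rw [hlim2.liminf_eq]
    rw [nonpos_iff_eq_zero] at h0
    rw [h0]
    simp
  apply le_antisymm _ bot_le
  apply ENNReal.le_of_forall_pos_le_add
  intro ε hε _
  simpa using hall ε hε

end Pool.Agent.Lib.MP_b5d711_an
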